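import Pool.Agent.N542.PB.Sets
import Pool.Agent.N542.PB.GenPoly

set_option autoImplicit false

/-!
# Record prime gaps around `f(a b) + u(a) + v(b)` and `f(a + b) + u(a) + v(b)`, arbitrary `u`, `v`

Let `f₁, …, f_r` be smoothly varying functions (Bingham, Goldie, Teugels) whose indices `c_j` are
arbitrary real numbers except `0, 1, 2, …`, for instance `t ^ (c_j)` or `t ^ (c_j)` plus a combination
of lower real powers (`smoothlyVarying_genPoly` below), and let `u_j` be real numbers such that the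
`c_j + u_j` are positive and distinct. Let `D` be a natural number and `0 < ε ≤ 1 / 2`. There are
`κ, δ > 0` such that the following holds for all large `X`, for ARBITRARY sets `A ⊆ [X, 2 X)`, `B` of
natural numbers with `|A| ≥ X ^ (1 - δ)`, `|B| ≥ X ^ ε`, for ARBITRARY real functions `w_j(a)` and
ARBITRARY real polynomials `P_{j,b}(a)` of degree at most `D`, one for every `b` (for instance
arbitrary constants `v_j(b)`), and for real `α_j`.

* Products. Let `B ⊆ [Y, 2 Y]`, `1 ≤ Y ≤ X ^ (1 / ε)`, `|B| (X Y) ^ (c_j + u_j) ≥ X ^ ε Y` and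
  `(X Y) ^ (u_j - δ) ≤ |α_j| ≤ (X Y) ^ (u_j + δ)`. If all the numbers
  `x_j(a, b) = α_j f_j(a b) + w_j(a) + P_{j,b}(a)` (`a ∈ A`, `b ∈ B`) are at least `X ^ ε`, then at
  least `|A| |B| X ^ (- ε)` of the pairs `(a, b) ∈ A × B` are such that no prime lies within
  `κ log X (log₂ X)² log₄ X / (log₃ X)²` of any of `x_1(a, b), …, x_r(a, b)`.
* Sums. The same for `x_j(a, b) = α_j f_j(a + b) + w_j(a) + P_{j,b}(a)`, if `B ⊆ [0, 2 X]`,
  `|B| X ^ (c_j + u_j) ≥ X ^ (1 + ε)` and `X ^ (u_j - δ) ≤ |α_j| ≤ X ^ (u_j + δ)`.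

So the record gaps cannot be avoided by any choice of the functions: `A` and `B` may be any sets
of primes, of values of polynomials (for `B`), and so on, and `w_j`, `v_j` may be anything.

The starting results `MP_45ff98_nt.SumsetsInRecordGaps` and `MP_45ff98_nt.ProductsOfArbitrarySets`
treat `f(a) + α (a + b) ^ c + g(b)` for `|A| |B| ≥ N ^ (2 - δ)` and `f(a) + α a b + g(b)`, `α` Diophantine
(one function, one pair). New here: the products `f(a b)`, `Y` up to `X ^ (1 / ε)`, sparse `B`, the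
polynomials `P_{j,b}(a)`, several smoothly varying functions at the same time, and the number of pairs.

Proof (`Pool.Agent.N542.PB`). Cauchy's inequality over `a`, extended to the full interval, removes
`w_j`; for `b ≠ b'` not too close the sums over `a` of `e(G(ab) - G(ab') + (polynomial))`,
`G = ∑ θ_j f_j`, are differenced more than `D` times, so that the polynomials disappear and the term
with the largest `c_j + u_j` dominates; the derivatives are found by the mean value theorem for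
`t ^ k G⁽ᵏ⁾(t)`, resp. for `G⁽ᵏ⁾(t)`. Then the joint covering criterion `crit_scaledJ` (helper961) is
applied to the family of all pairs which are not good.
-/

namespace Pool.Agent.Results.MP_ff81b6_nt.ArbitrarySets

open Finset Filter Topology

/-- the record function `log x (log₂ x)² log₄ x / (log₃ x)²` -/
noncomputable def R (x : ℝ) : ℝ :=
  Real.log x * (Real.log (Real.log x)) ^ 2 * Real.log (Real.log (Real.log (Real.log x))) /
    (Real.log (Real.log (Real.log x))) ^ 2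

/-- `f` is smoothly varying with index `c`: it is positive and has derivatives of every order near
infinity, and `t ^ j f⁽ʲ⁾(t) / f(t)` tends to `c (c - 1) ⋯ (c - j + 1)` for every `j`. -/
def SmoothlyVarying (c : ℝ) (f : ℝ → ℝ) : Prop :=
  (∀ᶠ t in atTop, 0 < f t) ∧
  (∀ j : ℕ, ∀ᶠ t in atTop, DifferentiableAt ℝ (iteratedDeriv j f) t) ∧
  ∀ j : ℕ, Tendsto (fun t => t ^ j * iteratedDeriv j f t / f t) atTop
    (𝓝 (∏ i ∈ range j, (c - i)))

/-- No prime lies within `ρ` of any of the numbers `x_j(a, b)`. -/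
def Isolated {r : ℕ} (ρ : ℝ) (x : Fin r → ℕ → ℕ → ℝ) (i : ℕ × ℕ) : Prop :=
  ∀ j, ∀ q : ℕ, q.Prime → ρ < |(q : ℝ) - x j i.1 i.2|

/-- The main theorem. -/
theorem result (r : ℕ) (hr : 1 ≤ r) (c u : Fin r → ℝ) (f : Fin r → ℝ → ℝ)
    (hcn : ∀ j, ∀ n : ℕ, c j ≠ n) (hf : ∀ j, SmoothlyVarying (c j) (f j))
    (hv : ∀ j, 0 < c j + u j) (hinj : Function.Injective (fun j => c j + u j))
    (D : ℕ) (ε : ℝ) (hε : 0 < ε) (hε1 : ε ≤ 1 / 2) :
    ∃ κ δ : ℝ, 0 < κ ∧ 0 < δ ∧ ∀ᶠ X : ℕ in atTop,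
      ∀ (A B : Finset ℕ) (α : Fin r → ℝ) (w : Fin r → ℕ → ℝ) (P : Fin r → ℕ → Polynomial ℝ),
      A ⊆ Ico X (2 * X) → (X : ℝ) ^ (1 - δ) ≤ A.card → (X : ℝ) ^ ε ≤ B.card →
      (∀ j b, (P j b).natDegree ≤ D) →
      -- products
      (∀ Y : ℕ, 1 ≤ Y → (Y : ℝ) ≤ (X : ℝ) ^ (1 / ε) → B ⊆ Icc Y (2 * Y) →
        (∀ j, (X : ℝ) ^ ε * Y ≤ B.card * ((X : ℝ) * Y) ^ (c j + u j)) →
        (∀ j, ((X : ℝ) * Y) ^ (u j - δ) ≤ |α j| ∧ |α j| ≤ ((X : ℝ) * Y) ^ (u j + δ)) →
        (∀ a ∈ A, ∀ b ∈ B, ∀ j, (X : ℝ) ^ ε ≤ α j * f j ((a : ℝ) * b) + w j a +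
          (P j b).eval (a : ℝ)) →
        ∃ G ⊆ A ×ˢ B, (A.card : ℝ) * B.card * (X : ℝ) ^ (-ε) ≤ (G.card : ℝ) ∧
          ∀ i ∈ G, Isolated (κ * R X) (fun j a b => α j * f j ((a : ℝ) * b) + w j a +
            (P j b).eval (a : ℝ)) i) ∧
      -- sums
      (B ⊆ Icc 0 (2 * X) →
        (∀ j, (X : ℝ) ^ (1 + ε) ≤ B.card * (X : ℝ) ^ (c j + u j)) →
        (∀ j, (X : ℝ) ^ (u j - δ) ≤ |α j| ∧ |α j| ≤ (X : ℝ) ^ (u j + δ)) →
        (∀ a ∈ A, ∀ b ∈ B, ∀ j, (X : ℝ) ^ ε ≤ α j * f j ((a : ℝ) + b) + w j a +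
          (P j b).eval (a : ℝ)) →
        ∃ G ⊆ A ×ˢ B, (A.card : ℝ) * B.card * (X : ℝ) ^ (-ε) ≤ (G.card : ℝ) ∧
          ∀ i ∈ G, Isolated (κ * R X) (fun j a b => α j * f j ((a : ℝ) + b) + w j a +
            (P j b).eval (a : ℝ)) i) := by
  have hSV : ∀ j, Pool.Agent.N542.PP.SV (c j) (fun k => iteratedDeriv k (f j)) := by
    intro j
    refine ⟨?_, ?_, ?_⟩
    · simpa only [iteratedDeriv_zero] using (hf j).1
    · intro k
      filter_upwards [(hf j).2.1 k] with t ht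
      rw [iteratedDeriv_succ]
      exact ht.hasDerivAt
    · intro k
      have h1 := (hf j).2.2 k
      rw [Pool.Agent.N542.PP.fall]
      simpa only [iteratedDeriv_zero] using h1
  have h := Pool.Agent.N542.PB.sets hr c u (fun j k => iteratedDeriv k (f j)) hSV hcn hv hinj D ε
    hε hε1
  simp only [iteratedDeriv_zero] at h
  exact h

/-- `t ^ c` plus a combination of lower real powers is smoothly varying with index `c`. -/
theorem smoothlyVarying_genPoly (c : ℝ) (n : ℕ) (a b : Fin n → ℝ) (hb : ∀ i, b i < c) :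
    SmoothlyVarying c (fun t => t ^ c + ∑ i, a i * t ^ b i) :=
  Pool.Agent.N542.PB.genPoly_sv c n a b hb

end Pool.Agent.Results.MP_ff81b6_nt.ArbitrarySets
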