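import Pool.Agent.N286.FQ.Final

set_option autoImplicit false

/-! # Fermat quotients in record gaps between primes

The Fermat quotient of an integer `n` that is not divisible by the prime `p` is the least
non-negative residue `q_p(n)` of `(n ^ (p - 1) - 1) / p` modulo `p`.  For `x` in an interval of
length `L ≤ p ^ 2` we find many `x` such that `x` and the Fermat quotients
`q_p(f_1(x)), ..., q_p(f_k(x))` of the values of coprime polynomials, for example of consecutive
integers `x, x + 1, ..., x + k - 1`, lie at the same time in gaps between primes of the record size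
for the modulus `p`, and in prescribed intervals.  The only condition is that the box has volume at
least `p ^ (k + 1 + δ)`; in particular `L = p ^ (1 + δ)` is enough for the `k` Fermat quotients
without localisation.

Method: the complete exponential sums modulo `p ^ 2` are evaluated on the classes modulo `p`, where
the Fermat quotient of `f (x + p y)` is `q_p(f(x)) - y f'(x) / f(x)`; so a class contributes only
if a rational function vanishes, and the sums are at most `2 k d p`.  The record gaps come from the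
joint covering criterion of the starting library. -/

namespace Pool.Agent.Results.MP_ff81b6_nt.FermatQuotientsInRecordGaps

open Polynomial

/-- The record size of gaps between consecutive primes near `x`, up to a constant. -/
noncomputable def recordGap (x : ℝ) : ℝ :=
  Real.log x * (Real.log (Real.log x)) ^ 2 * Real.log (Real.log (Real.log (Real.log x))) /
    (Real.log (Real.log (Real.log x))) ^ 2

/-- The integer `m` is a proper multiple of a prime number that is at most `z`; in particular `m`
is composite. -/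
def SmallFactor (z : ℝ) (m : ℤ) : Prop :=
  ∃ q : ℕ, q.Prime ∧ (q : ℝ) ≤ z ∧ (q : ℤ) ∣ m ∧ (q : ℤ) < m

/-- The Fermat quotient of `n`: the residue of `(n ^ (p - 1) - 1) / p` modulo `p` in
`{0, ..., p - 1}`; it is `0` if `p ∣ n`. -/
def fermatQuotient (p : ℕ) (n : ℤ) : ℕ :=
  if (p : ℤ) ∣ n then 0 else ((n ^ (p - 1) - 1) / p % p).toNat

/-- The reduction of an integer polynomial modulo `p`. -/
noncomputable def red (p : ℕ) (g : ℤ[X]) : (ZMod p)[X] := g.map (Int.castRingHom (ZMod p))

theorem result (k d : ℕ) (hk : 1 ≤ k) (δ : ℝ) (hδ : 0 < δ) (hδ1 : δ ≤ 1) :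
    ∃ κ : ℝ, 0 < κ ∧ ∃ p₀ : ℕ, ∀ p : ℕ, p.Prime → p₀ ≤ p →
    ∀ f : Fin k → ℤ[X], (∀ i, (f i).natDegree ≤ d) →
    (∀ i, 1 ≤ (red p (f i)).natDegree) → (∀ i, (red p (f i)).Separable) →
    (∀ i j, i ≠ j → IsCoprime (red p (f i)) (red p (f j))) →
    ∀ (a L : ℕ) (c D : Fin k → ℕ), L ≤ p ^ 2 → (∀ i, c i + D i ≤ p) →
    (p : ℝ) ^ δ ≤ L → (∀ i, (p : ℝ) ^ δ ≤ D i) →
    (p : ℝ) ^ ((k : ℝ) + 1 + δ) ≤ L * ∏ i, (D i : ℝ) →
    (L * ∏ i, (D i : ℝ)) * (p : ℝ) ^ (-((k : ℝ) + δ)) ≤
      Set.ncard {x : ℕ | a ≤ x ∧ x < a + L ∧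
        (∀ i, c i ≤ fermatQuotient p ((f i).eval (x : ℤ)) ∧
          fermatQuotient p ((f i).eval (x : ℤ)) < c i + D i) ∧
        ∀ m : ℤ, (|(m : ℝ) - x| ≤ κ * recordGap p ∨
            ∃ i, |(m : ℝ) - (fermatQuotient p ((f i).eval (x : ℤ)) : ℕ)| ≤ κ * recordGap p) →
          SmallFactor ((p : ℝ) ^ δ) m} :=
  Pool.Agent.N286.FQ.final k d hk δ hδ hδ1

end Pool.Agent.Results.MP_ff81b6_nt.FermatQuotientsInRecordGaps
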