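import Pool.Agent.N422.LG.ALL

/-!
# Cramér's exponent two is the limit for all nonnegative weights

Author: helper422.  All known lower bounds for the maximal gaps between primes come from residue classes `n` modulo `P`,
`log P ≍ log x`, for which all `n + h`, `h ≤ U`, have a prime factor `≤ log x`; in the work of Maynard and of Ford, Green,
Konyagin, Maynard and Tao these classes are found with the help of nonnegative sieve weights.  By a theorem of Iwaniec on
the function of Jacobsthal residue classes cannot give more than `U ≪ (log x)^2`, the size predicted by Cramér.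

Here we prove that this limit holds, up to `ε` in the exponent, for EVERY nonnegative weight `w` of level `Q` (a sum of
functions of `n mod d`, `d ≤ Q`; no condition on size or shape): if `U ≥ (log Q)^(2+ε)` the mean with respect to `w` of the
number of `h ≤ U` for which `n + h` has no prime factor `≤ Q` is at least `κ(ε) U/log Q`, the right order of magnitude.  In
particular no nonnegative `w ≠ 0` of level `Q` is supported on the `n` for which all `n + h`, `h ≤ U`, have a prime factor
`≤ Q`.

Proof.  For the primes `p ≤ y = (log Q)^(1+ε')` the linear sieve (`f(s) > 0` for `s > 2`; `LG/LIN2`, helper31) gives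
`≫ U/log y` remaining `h` for every `n`.  The primes in `(y, Q]` are treated in windows `(z, z']` with `∑ 1/p ≍ δ`; fix the
class of `n` modulo the product of the primes `≤ z`, which fixes the set `S` of the `h ≤ U` which remain.  The number of pairs
`(p, h)`, `h ∈ S`, `p` in the window, `p ∣ n + h`, is a sum over `j ≤ U/z + 1` of functions `1_{n mod p ∈ Ω_j(p)}`, and an
inequality for all nonnegative functions of level `Q` on the product space `∏_p ℤ/p` (`WS`: kernels `K_ζ` which move the
places, analytic in `ζ`, nonnegative on the circle, the identity at `ζ = e^(-t)`, and the inequality of Jensen) bounds its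
mean by `(1 + 2δ)(∑ 1/p)|S|` plus `O((U/z + 1)(log Q/log z)/δ)` (`LG/MOD3`, helper919, `LG/ARG`, helper286, `LG/HIT`,
helper692).  As the mean of `|S|` is `≫ U/log z`, the error is relatively small as soon as `z ≥ (log Q)^(1+ε')` (`LG/REC2`,
helper602, `LG/FIN2`, helper400).
-/

set_option autoImplicit false

open Finset

namespace Pool.Agent.Results.MP_ff81b6_nt.LimitsForLongGaps

/-- the weight `w(n) = ∑_{d ≤ Q} c_d(n mod d)`, an arbitrary real weight of level `Q` -/
noncomputable def weight (Q : ℕ) (c : ℕ → ℕ → ℝ) (n : ℕ) : ℝ := ∑ d ∈ Icc 1 Q, c d (n % d)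

/-- the mean value of `F` over the period `Q!` -/
noncomputable def mean (Q : ℕ) (F : ℕ → ℝ) : ℝ := (∑ n ∈ range Q.factorial, F n) / (Q.factorial : ℝ)

/-- the number of the `h`, `1 ≤ h ≤ U`, for which `n + h` has no prime factor `p ≤ Q` -/
def rough (Q U n : ℕ) : ℕ := ((Icc 1 U).filter (fun h => ∀ p ∈ (Icc 1 Q).filter Nat.Prime, ¬ p ∣ n + h)).card

/-- For every `ε > 0` there are `κ > 0` and `Q₀` such that for all `Q ≥ Q₀`, all `U ≥ (log Q)^(2+ε)` and every weight `w` of
level `Q` with `w(n) ≥ 0` for all `n`: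

(1) the mean of `w(n) #{h ≤ U : n + h free of the primes ≤ Q}` is at least `κ (U/log Q)` times the mean of `w`;

(2) if `w(n) = 0` for all `n` for which some `n + h`, `1 ≤ h ≤ U`, is free of the primes `≤ Q`, then `w = 0`. -/
theorem result : ∀ ε : ℝ, 0 < ε → ∃ κ : ℝ, 0 < κ ∧ ∃ Q₀ : ℕ, ∀ Q : ℕ, Q₀ ≤ Q → ∀ U : ℕ, Real.log Q ^ (2 + ε) ≤ U →
    ∀ c : ℕ → ℕ → ℝ, (∀ n, 0 ≤ weight Q c n) →
    κ * (U / Real.log Q) * mean Q (weight Q c) ≤ mean Q (fun n => weight Q c n * (rough Q U n : ℝ)) ∧
    ((∀ n, 0 < rough Q U n → weight Q c n = 0) → ∀ n, weight Q c n = 0) := by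
  intro ε hε
  obtain ⟨κ, hκ, Q1, h⟩ := Pool.Agent.N422.LG.fin2_all ε hε
  refine ⟨κ, hκ, max Q1 3, fun Q hQ U hU c hc => ?_⟩
  have hQ1 : Q1 ≤ Q := (le_max_left _ _).trans hQ
  have hQ3 : 3 ≤ Q := (le_max_right _ _).trans hQ
  have hmain : κ * (U / Real.log Q) * mean Q (weight Q c) ≤ mean Q (fun n => weight Q c n * (rough Q U n : ℝ)) :=
    h Q hQ1 U hU c hc
  refine ⟨hmain, fun h0 => ?_⟩
  have hlog : 1 ≤ Real.log Q := by
    rw [Real.le_log_iff_exp_le (by positivity)]
    have h3 : (3 : ℝ) ≤ Q := by exact_mod_cast hQ3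
    linarith [Real.exp_one_lt_d9]
  have hU0 : (0 : ℝ) < U := lt_of_lt_of_le (Real.rpow_pos_of_pos (by linarith) _) hU
  have hF : (0 : ℝ) < (Q.factorial : ℝ) := by exact_mod_cast Q.factorial_pos
  have hz : mean Q (fun n => weight Q c n * (rough Q U n : ℝ)) = 0 := by
    unfold mean
    rw [Finset.sum_eq_zero, zero_div]
    intro n _
    rcases Nat.eq_zero_or_pos (rough Q U n) with h1 | h1
    · rw [h1, Nat.cast_zero, mul_zero]
    · rw [h0 n h1, zero_mul]
  rw [hz] at hmain
  have hsum0 : ∑ n ∈ range Q.factorial, weight Q c n ≤ 0 := by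
    by_contra h1
    rw [not_le] at h1
    have h2 : 0 < mean Q (weight Q c) := div_pos h1 hF
    have h3 : 0 < κ * (U / Real.log Q) * mean Q (weight Q c) := by positivity
    linarith
  have hsum : ∀ n ∈ range Q.factorial, weight Q c n = 0 := by
    have h1 : ∑ n ∈ range Q.factorial, weight Q c n = 0 :=
      le_antisymm hsum0 (Finset.sum_nonneg fun n _ => hc n)
    exact (Finset.sum_eq_zero_iff_of_nonneg fun n _ => hc n).1 h1
  intro n
  have hper : weight Q c n = weight Q c (n % Q.factorial) := by
    unfold weight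
    refine Finset.sum_congr rfl fun d hd => ?_
    rw [mem_Icc] at hd
    rw [Nat.mod_mod_of_dvd n (Nat.dvd_factorial hd.1 hd.2)]
  rw [hper]
  exact hsum _ (mem_range.2 (Nat.mod_lt _ Q.factorial_pos))

end Pool.Agent.Results.MP_ff81b6_nt.LimitsForLongGaps
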