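import Pool.Agent.N39.RG.Pairs

set_option autoImplicit false

/-! # Record prime gaps at the images of arbitrary sets under arbitrary families of matrices modulo `p` -/

namespace Pool.Agent.Results.MP_ff81b6_nt.MatricesOnArbitrarySets

open Finset

/-- the record scale for gaps between primes -/
noncomputable def f (x : ℝ) : ℝ :=
  Real.log x * (Real.log (Real.log x)) ^ 2 * Real.log (Real.log (Real.log (Real.log x))) /
    (Real.log (Real.log (Real.log x))) ^ 2

open scoped Classical in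
/-- Let `r, E ≥ 0` and `0 < δ ≤ 1`. There are `κ > 0` and `p₀` such that for every prime `p ≥ p₀`, all
`n ≥ 0` and all real `ε`: let `X` be any finite index set, `Y` any set of vectors in `F_p^n`, `T(x)` any `r × n` matrices over `F_p`, `u`
and `v` any functions on `X` and `Y` with values in `F_p^r`, such that for every `α ≠ 0` in `F_p^r` at most
`|X|² |Y| / p^(n + 2ε)` pairs `(x, x')` in `X × X` satisfy `αᵀ T(x) = αᵀ T(x')`. Then for every box
`∏ (M j, M j + L j]` with `p^δ ≤ L j ≤ p` of volume at least `p^(r - ε + δ)` there are at least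
`p^(-δ) |X| |Y| ∏ (L j / p)` pairs `(x, y)` in `X × Y` such that the box contains an integer vector
`z ≡ T(x) y + u(x) + v(y)` modulo `p` with the following property: for all coprime exponents `e j ≤ E` every
integer at distance at most `κ f(p)` from `∏ (z j)^(e j)` has a prime factor at most `p^δ`. -/
theorem result (r E : ℕ) (δ : ℝ) (hδ : 0 < δ) (hδ1 : δ ≤ 1) :
    ∃ κ : ℝ, 0 < κ ∧ ∃ p₀ : ℕ, ∀ p : ℕ, p.Prime → p₀ ≤ p →
    ∀ (n : ℕ) (ε : ℝ) (I : Type) (X : Finset I) (Y : Finset (Fin n → ZMod p))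
      (T : I → Matrix (Fin r) (Fin n) (ZMod p)) (u : I → Fin r → ZMod p)
      (v : (Fin n → ZMod p) → Fin r → ZMod p), X.Nonempty → Y.Nonempty →
    (∀ α : Fin r → ZMod p, α ≠ 0 →
      (((X ×ˢ X).filter (fun q => Matrix.vecMul α (T q.1) = Matrix.vecMul α (T q.2))).card : ℝ) *
        (p : ℝ) ^ ((n : ℝ) + 2 * ε) ≤ (X.card : ℝ) ^ 2 * Y.card) →
    ∀ (M : Fin r → ℤ) (L : Fin r → ℕ), (∀ j, (p : ℝ) ^ δ ≤ L j ∧ L j ≤ p) →
      (p : ℝ) ^ ((r : ℝ) - ε + δ) ≤ ∏ j, (L j : ℝ) →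
    (p : ℝ) ^ (-δ) * (X.card * Y.card * ∏ j, ((L j : ℝ) / p)) ≤
      (((X ×ˢ Y).filter (fun q => ∃ z : Fin r → ℤ,
        (∀ j, M j < z j ∧ z j ≤ M j + L j ∧
          ((z j : ℤ) : ZMod p) = (T q.1).mulVec q.2 j + u q.1 j + v q.2 j) ∧
        ∀ e : Fin r → ℕ, (∀ j, e j ≤ E) → Finset.univ.gcd e = 1 →
          ∀ m : ℤ, |(m : ℝ) - ∏ j, (z j : ℝ) ^ e j| ≤ κ * f p →
            ∃ l : ℕ, l.Prime ∧ (l : ℝ) ≤ (p : ℝ) ^ δ ∧ (l : ℤ) ∣ m)).card : ℝ) := by
  obtain ⟨κ, hκ, p₀, h⟩ := Pool.Agent.N39.RG.mainE r E δ hδ hδ1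
  refine ⟨κ, hκ, p₀, ?_⟩
  intro p hp hpp n ε I X Y T u v hX hY hT M L hL hV
  have : Fact p.Prime := ⟨hp⟩
  have hp0 : (0 : ℝ) < p := by exact_mod_cast hp.pos
  have hXc : (0 : ℝ) < X.card := by exact_mod_cast hX.card_pos
  have hYc : (0 : ℝ) < Y.card := by exact_mod_cast hY.card_pos
  have hScard : (((X ×ˢ Y).card : ℕ) : ℝ) = X.card * Y.card := by
    rw [card_product]; push_cast; rfl
  have key := h p hpp ε (I × (Fin n → ZMod p)) (X ×ˢ Y)
    (fun q j => (T q.1).mulVec q.2 j + u q.1 j + v q.2 j) (hX.product hY) (by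
      intro α hα
      have h1 := Pool.Agent.N39.RG.bias_sq X n r T u Y v α
      have h2 := hT α hα
      rw [hScard]
      apply le_of_sq_le_sq _ (by positivity)
      refine h1.trans ?_
      have h3 : (p : ℝ) ^ ((n : ℝ) + 2 * ε) = (p : ℝ) ^ n * ((p : ℝ) ^ ε) ^ 2 := by
        rw [Real.rpow_add hp0, Real.rpow_natCast, ← Real.rpow_natCast ((p : ℝ) ^ ε) 2,
          ← Real.rpow_mul hp0.le]
        congr 2
        push_cast
        ring
      rw [h3] at h2
      have h4 : (0 : ℝ) < (p : ℝ) ^ ε := Real.rpow_pos_of_pos hp0 _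
      rw [Real.rpow_neg hp0.le, mul_pow, inv_pow, ← div_eq_mul_inv, le_div_iff₀ (by positivity)]
      calc _ = (Y.card : ℝ) * ((((X ×ˢ X).filter (fun q =>
              Matrix.vecMul α (T q.1) = Matrix.vecMul α (T q.2))).card : ℝ) *
              ((p : ℝ) ^ n * ((p : ℝ) ^ ε) ^ 2)) := by
            have e1 : (((X ×ˢ X).filter (fun q =>
              Matrix.vecMul α (T q.1) = Matrix.vecMul α (T q.2))).card : ℝ) =
              (((X ×ˢ X).filter (fun q =>
              Matrix.vecMul α (T q.1) = Matrix.vecMul α (T q.2))).card : ℝ) := rfl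
            ring
        _ ≤ Y.card * ((X.card : ℝ) ^ 2 * Y.card) := by gcongr
        _ = _ := by ring) M L (fun j => (hL j).2) (fun j => (hL j).1) hV
  rw [hScard] at key
  refine key.trans ?_
  have h5 := Pool.Agent.N39.RG.fam_to_index (X ×ˢ Y)
    (fun q : I × (Fin n → ZMod p) => fun j => (T q.1).mulVec q.2 j + u q.1 j + v q.2 j) M L
    (fun j => (hL j).2) (fun z => ∀ e : Fin r → ℕ, (∀ i, e i ≤ E) → Finset.univ.gcd e = 1 →
        Pool.Agent.N39.RG.Far (∏ i, z i ^ e i) (κ * Pool.Agent.W147.PS.ff p) ((p : ℝ) ^ δ))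
  refine le_trans (Nat.cast_le.mpr h5) ?_
  rw [Nat.cast_le]
  apply card_le_card
  intro q hq
  rw [mem_filter] at hq ⊢
  obtain ⟨h6, z, h7, h8⟩ := hq
  refine ⟨h6, z, h7, fun e he hg m hm => ?_⟩
  apply h8 e he hg m
  push_cast
  exact hm

end Pool.Agent.Results.MP_ff81b6_nt.MatricesOnArbitrarySets
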